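import Pool.Agent.X163.MU.Main

/-!
# Independence of the Chow-Kunneth filtration for varieties dominated by surfaces, and Bloch's conjecture

`𝒱` is a class of smooth projective geometrically irreducible varieties over the field `k` closed
under products (for the problem: all smooth projective varieties over `k`), `C` the Chow groups
with rational coefficients (in the form of their formal properties, `IsChowProj`), `H` a Weil
cohomology theory (`IsWeilProj`), and `SurfaceProperties H` records two known facts: homologically
trivial divisors on a product `X × Y` are sums of pull-backs of divisors from `X` and from `Y` (with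
rational coefficients), and every surface has a Chow-Kunneth decomposition as constructed by Murre.

Let `X` be a variety of any dimension `d` whose motive is a direct summand of a finite sum of twists
of motives of surfaces (`throughSurfaces`), and whose cohomology in even degrees is spanned by
classes of cycles (`EvenAlgebraic`). For example `X` is a surface with `p_g = 0`, or dominated by
products of such surfaces with projective spaces, or a uniruled threefold with `h^{2,0} = 0`.

Theorem. For each codimension `l` and each `n` with `2 l + 1 - 2 d ≤ n ≤ 2 l` (for instance `n = 1` if
`1 ≤ l ≤ d`) the following conditions are equivalent: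
(1) the subgroups `F^m CH^l(X)`, for all `m`, do not depend on the Chow-Kunneth decomposition;
(2) the subgroup `F^n CH^l(X)` does not depend on the Chow-Kunneth decomposition;
(3) homologically trivial idempotent correspondences act as zero on `CH^l(X)`;
(4) homologically trivial cycles of codimension `l` are detected by curves (`CurvesDetectOn`): a
homologically trivial `x ∈ CH^l(X)` is zero if `Γ_* x = 0` in `Pic(T)` for all curves `T` and all
`Γ ∈ CH^(d+1-l)(X × T)`;
(5) (B) in codimension `l`, for all Chow-Kunneth decompositions of `X`;
(6) (D) in codimension `l`, for all Chow-Kunneth decompositions of `X`.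

For a surface with `p_g = 0` and `l = 2` condition (4) is Bloch's conjecture (the Albanese kernel is
zero). So the independence of `F^1 CH^2(X)`, `F^2 CH^2(X)` or `F^3 CH^2(X)` from the decomposition is
equivalent to Bloch's conjecture for this surface.
-/

set_option autoImplicit false

open CategoryTheory AlgebraicGeometry

universe u v w

namespace Pool.Agent.Results.MP_10f4af_ag.AlgebraicEvenCohomology

open Pool.Agent.H914 Pool.Agent.W492.BB Pool.Agent.W550.Corr Pool.Agent.TH133
  Pool.Agent.X308.S Pool.Agent.X163.MU

/-- For a variety whose motive is a direct summand of a sum of twists of motives of surfaces, with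
algebraic even cohomology, and for each codimension `l`: the independence of one step `F^n CH^l(X)`
from the Chow-Kunneth decomposition implies the independence of all of them, and it is equivalent to
the vanishing of the action of homologically trivial idempotents on `CH^l(X)`, to the injectivity of
the maps to the Picard groups of curves on homologically trivial cycles of codimension `l`, and to
(B) and to (D) in codimension `l`. -/
theorem result {k : Type u} [Field k] {𝒱 : VarClass k} (C : TheoryData.{u, v, 0} 𝒱 ℚ)
    [IsChowProj C] {K : Type w} [Field K] (H : WeilTheoryData.{u, v, w} C K) [IsWeilProj H]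
    (hS : SurfaceProperties H) (X : 𝒱.Obj) (hX : dg C X ∈ throughSurfaces C X)
    (hE : EvenAlgebraic H X) (l n : ℕ) (hn : 2 * l < n + 2 * X.dim) (hn' : n ≤ 2 * l) :
    List.TFAE [MurreCAt H X l,
      ∀ ρ ρ', IsCK H X ρ → IsCK H X ρ' → ckFil C ρ l n = ckFil C ρ' l n,
      PhantomsZeroOn H X l, CurvesDetectOn H X l, MurreB0At H X l ∧ MurreB1At H X l,
      MurreDAt H X l] := by
  have h1 := tfae_evenOn hS hX hE l
  obtain ⟨π, h, -, hw⟩ := exists_selfDual_CK (H := H) hS hX
  tfae_have 1 → 2 := fun h ρ ρ' hρ hρ' => h ρ ρ' hρ hρ' n
  tfae_have 2 → 3 := fun h2 => phantomsOn_of_step h (noRaising_of_wt hS hw) ⟨hn, hn'⟩ h2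
  tfae_have 3 ↔ 1 := h1.out 4 2
  tfae_have 3 ↔ 4 := h1.out 4 5
  tfae_have 3 ↔ 5 := h1.out 4 0
  tfae_have 3 ↔ 6 := h1.out 4 3
  tfae_finish

end Pool.Agent.Results.MP_10f4af_ag.AlgebraicEvenCohomology
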