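import Pool.Agent.X312.FK.Rk

/-!
# A gap law for two Chow-Künneth filtrations on `Y × X ^ n`

Let `k` be any field, and let `Y` be **any** smooth projective variety over `k` with **two**
Chow-Künneth decompositions. Let `X` be a smooth projective variety with a Chow-Künneth
decomposition such that the numerically trivial self-correspondences of its powers are nilpotent
modulo rational equivalence, and homological and numerical equivalence agree on its powers (for
example an abelian variety or a product of curves over a field of characteristic `0`). So the
varieties `Y × X ^ n` have two product decompositions. Let `M` be a direct summand of the Chow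
motive of `X ^ m`, cut out by a projector which commutes with the Chow-Künneth projectors, such
that `M` is irreducible modulo homological equivalence; let `D = dim H(M)` be its rank. Let `ρ(Z)`
be the rank of the cycles of all codimensions on `Z` modulo numerical equivalence, and `b` the sum
of the Betti numbers of `X`. Fix `q`, and let `A(Z)` and `B(Z)` be the sums over `i` of the
subspaces `F^q CH^i(Y × Z)` for the two decompositions, `Z` a power of `X`. The conjecture Q1 for
`Y × X ^ m` says that `A(X ^ m) = B(X ^ m)`. Then `e A(X ^ m) ⊆ B(X ^ m)`, where `e` is the
projector of `M`, **or for all** `n ≥ 1` there are at least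

`(D - 4 (m + 3) b ^ (m + 5) log (n + 1) / n) ρ(X ^ n)`

elements of `A(X ^ n)` which are linearly independent modulo `B(X ^ n)`. The roles of the two
decompositions can be exchanged. So, if the two decompositions of `Y` give different filtrations
on `Y × X ^ m`, then this is true for all `Y × X ^ n` with large `n`, and the filtrations are very
different.

The proof. A correspondence `a` of degree `r` between powers of `X` is graded if it maps `h^i` to
`h^(i + 2 r)` for all `i`. The graded correspondences form a category, every algebraic cohomology
class of correspondences is the class of a graded one (compress with the projectors), and they act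
on the quotients `(A(Z) + B(Z)) / B(Z)`. Let `e` be the projector of `M`, `P = X ^ m`, and let `z
= e z ≠ 0` be an element of this space for `P`. If `x` is a graded correspondence with `x z = 0`
then `e x e` is nilpotent, as otherwise some multiple of it would be an idempotent, equal to `e`
by irreducibility and by the lifting of idempotents, and would not kill `z`. So the trace of `e x`
vanishes, and the dimension for `Z` is at least the rank of the trace form `(u, v) ↦ tr (e v u)`
on the correspondences between `P` and `Z`. For `Z = X ^ n` this rank is at least `(D - ε) ρ(X ^
n)`, by the log-convexity of the sequence of the ranks `ρ(X ^ (2 l))`, by tensor powers, and by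
the symmetric group, which excludes small growth. For the other parity `M` is cut out of `X ^ (m +
1)`.
-/

set_option autoImplicit false

open CategoryTheory AlgebraicGeometry

universe u v w

namespace Pool.Agent.Results.MP_10f4af_ag.GapLaw

open Pool.Agent.H914 VarClass Obj WeilCohomology
open Pool.Agent.X312.FK (ChowData ChowModule IsAlgClass IrreducibleIn RankGE IsStableIn IndepMod)
open Pool.Agent.X312.FC (rankBound)
open Pool.Agent.Y133.Half (cycRank pw)

variable {k : Type u} [Field k] {𝒱 : VarClass k} {ops : CycleOps 𝒱}
  {W : WeilCohomology.{u, v} ops}

/-- The sum of the Betti numbers of `X`. -/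
noncomputable def totalBetti (W : WeilCohomology.{u, v} ops) (X : 𝒱.Obj) : ℕ :=
  Module.finrank W.K (W.H X)

/-- **The gap law for two families of subspaces and irreducible motives.** In the intended use `𝒱` is the
class of the powers of `X`, `C.A Z Z'` is the space of the cycles on `Z × Z'` modulo rational equivalence
which are graded for the Chow-Künneth decomposition of `X`, `T.M Z` is the Chow group of `Y × Z`, and
`A Z` and `B Z` are the steps `F^q` of the filtrations given by two decompositions of `Y`. Here `pw X m`
is the product of `m + 1` copies of `X`. -/
theorem result (C : ChowData W) (hC : C.IsChow) (T : ChowModule C) (hT : T.IsFunctor)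
    (A B : ∀ Z : 𝒱.Obj, Submodule W.K (T.M Z)) (hA : IsStableIn T A) (hB : IsStableIn T B)
    (X : 𝒱.Obj) (hX : ∀ n : ℕ, C.NumNil (pw X n)) (hD : ∀ n : ℕ, HomEqNum W (pw X n))
    (m : ℕ) (e : C.A (pw X m) (pw X m)) (he : C.comp e e = e)
    (hirr : IrreducibleIn IsAlgClass (C.cl e)) (D : ℕ) (hrk : RankGE (C.cl e) D) :
    (∀ x ∈ A (pw X m), T.act e x ∈ B (pw X m)) ∨
    ∀ n : ℕ, IndepMod (A (pw X n) : Set (T.M (pw X n))) (B (pw X n))
      (rankBound D (totalBetti W X) (cycRank ops (pw X n)) m n) :=
  Pool.Agent.X312.FK.rk_pair hC hT X hX hD hB hA e he hirr hrk

end Pool.Agent.Results.MP_10f4af_ag.GapLaw
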