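import Pool.Agent.X308.S.TriMain

/-!
# Independence of the Chow-Kunneth filtration and phantom idempotents

`𝒱` is a class of smooth projective geometrically irreducible varieties over the field `k` closed
under products (for example all of them), `C` the Chow groups with rational coefficients (in the
form of their formal properties, `IsChowProj`) and `H` a Weil cohomology theory (`IsWeilProj`).

Let `X` be a variety which has one Chow-Kunneth decomposition `π` such that every self-correspondence
`γ` of degree zero satisfies `π_a ∘ γ ∘ π_b = 0` for `b < a` (`NoRaising`): every surface has this
property (Murre; Kahn, Murre and Pedrini), and conjecturally every variety has it.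

Theorem. For such a variety the following are equivalent:
(i) Murre's conjecture (C): the filtration does not depend on the decomposition;
(ii) every homologically trivial idempotent self-correspondence of degree zero of `X` acts as zero
on the Chow groups of `X`;
(iii) for each `l` one step `F^(n(l)) CH^l(X)` (of arbitrarily chosen index with
`2 l + 1 - 2 d ≤ n(l) ≤ 2 l`) is independent of the decomposition.

The decompositions compared in (i) and (iii) are arbitrary. For surfaces with `H^2(X)` algebraic the
part `t_2(X)` of the motive is a homologically trivial direct summand, and (ii) contains Bloch's
conjecture.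

Steps of the proof. Let `π'` be another decomposition. As `π` is triangular, the entries
`π_a ∘ π'_b ∘ π_a` are idempotents, homologically trivial if `a ≠ b`; considering the component of
largest weight of a class in the one filtration but not in the other one finds that such an entry
does not act as zero. Conversely, if a homologically trivial idempotent `p` acts non-trivially then
so does one of its entries `e = π_a ∘ p ∘ π_a`, which is idempotent, and replacing `π_a`, `π_j` by
`π_a - e`, `π_j + e` for a suitable `j` changes the step `F^(n(l)) CH^l(X)`.
-/

set_option autoImplicit false

open CategoryTheory AlgebraicGeometry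

universe u v w

namespace Pool.Agent.Results.MP_10f4af_ag.IndependenceIffPhantoms

open Pool.Agent.H914 Pool.Agent.W492.BB Pool.Agent.TH133 Pool.Agent.X308.S

/-- For a variety with a Chow-Kunneth decomposition without weight-raising endomorphisms, Murre's
conjecture (C) is equivalent to the triviality of the action of homologically trivial idempotents on
the Chow groups, and it follows from the independence of one step of the filtration in each
codimension. -/
theorem result {k : Type u} [Field k] {𝒱 : VarClass k} (C : TheoryData.{u, v, 0} 𝒱 ℚ)
    [IsChowProj C] {K : Type w} [Field K] (H : WeilTheoryData.{u, v, w} C K) [IsWeilProj H]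
    (X : 𝒱.Obj) (hX : ∃ π : ℕ → C.A (X.prod X), IsCK H X π ∧ NoRaising C π) :
    (MurreC H X ↔ PhantomsActTrivially H X) ∧
    ∀ n : ℕ → ℕ, (∀ l, 2 * l < n l + 2 * X.dim ∧ n l ≤ 2 * l) →
      (∀ π π', IsCK H X π → IsCK H X π' → ∀ l : ℕ, ckFil C π l (n l) = ckFil C π' l (n l)) →
      MurreC H X := by
  obtain ⟨π, h, hT⟩ := hX
  exact ⟨⟨phantoms_of_murreC h hT, murreC_of_phantoms h hT⟩,
    fun n hn hind => murreC_of_phantoms h hT (phantoms_of_step h hT n hn hind)⟩

end Pool.Agent.Results.MP_10f4af_ag.IndependenceIffPhantoms
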