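import Pool.Agent.TH133.Murre

/-!
# Murre's conjecture (C) is equivalent to the first half of (B)

`𝒱` is a class of smooth projective geometrically irreducible varieties over the field `k` closed
under products (for example all of them), `C` the Chow groups with rational coefficients (in the
form of their formal properties, `IsChowProj`) and `H` a Weil cohomology theory (`IsWeilProj`).
`MurreC H X` is the conjecture (C) for `X`: for all `i`, `n` the subgroup `F^n CH^i(X)` is the same
for every Chow-Kunneth decomposition of `X`; `MurreC0 H X` is its part concerning only the steps
`F^0 CH^i(X)`, and `MurreB0 H X` says that `F^0 CH^i(X) = CH^i(X)` for all `i` and for every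
Chow-Kunneth decomposition of `X`.

Theorem. (C) holds for all `X` if and only if `F^0 CH^i(X) = CH^i(X)` for all `X`, all Chow-Kunneth
decompositions of `X` and all `i`. More precisely, if, for one variety `X`, the subgroups
`F^0 CH^i(X)` do not depend on the decomposition, then they are equal to `CH^i(X)`.

Steps of the proof. (1) Let `π` be a decomposition of `X` and let `α ∈ CH^i(X)` be a class with
`π_j α = α` for some `j > 2 i`. Let `u ∈ CH^i(X)` and `v ∈ CH^(d - i)(X)` be powers of a hyperplane
class with intersection number one, and `n = π_j ∘ (v × α) ∘ π_{2i}`. Then `n ∘ n = 0` and `n` acts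
as zero on the cohomology, so that the conjugates of the `π_m` by `1 + n` are a further
Chow-Kunneth decomposition; the class `π_{2i} u + α` is in the subgroup `F^0` of this decomposition,
and it is in the subgroup `F^0` of the original one only if `α = 0`. (2) If `F^0` is everything for
`X × X`, with the decomposition which is the product of the dual of `π` and of `π'`, then
`π'_b ∘ π_a = 0` for `a < b`, so that the filtration defined by `π` is contained in the one defined
by `π'`.

The proofs are in the starting file `Pool/Agent/TH133/Murre.lean`; they had not been handed in.
-/

open CategoryTheory AlgebraicGeometry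

set_option autoImplicit false

universe u v w

namespace Pool.Agent.Results.MP_10f4af_ag.IndependenceIffWhole

open Pool.Agent.H914 Pool.Agent.W492.BB Pool.Agent.TH133

/-- The filtrations of all varieties are independent of the Chow-Kunneth decomposition if and only if
`F^0` is everything for all varieties and all Chow-Kunneth decompositions; for a single variety, if
`F^0` is independent of the decomposition then it is everything. -/
theorem result {k : Type u} [Field k] {𝒱 : VarClass k} (C : TheoryData.{u, v, 0} 𝒱 ℚ)
    [IsChowProj C] {K : Type w} [Field K] (H : WeilTheoryData.{u, v, w} C K) [IsWeilProj H] :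
    ((∀ X : 𝒱.Obj, MurreC H X) ↔ ∀ X : 𝒱.Obj, MurreB0 H X) ∧
    ∀ X : 𝒱.Obj, MurreC0 H X → MurreB0 H X :=
  ⟨⟨fun h X => murreB0_of_C0 X fun π π' hπ hπ' i => h X π π' hπ hπ' i 0,
    fun h X => murreC_of_B0 X (h (X.prod X))⟩, fun X hX => murreB0_of_C0 X hX⟩

end Pool.Agent.Results.MP_10f4af_ag.IndependenceIffWhole
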